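import Pool.Agent.H.MP_9f00ad_co.D

namespace Pool.Agent.H.MP_96faa3_co

open Set Sum Matroid Pool.Agent.H.MP_9f00ad_co
open scoped Classical

variable {α β : Type} {t : ℕ}

def Loc (t : ℕ) (g : Set α → ℤ) : Prop :=
  ∀ Y : Fin t → Set α, ∃ g', Ex 2 g' ∧ (∀ X, g X ≤ g' X) ∧ ∀ i, g' (Y i) = g (Y i)

lemma loc {g : Set α → ℤ} (h : Ex 2 g) : Loc t g := fun _ => ⟨g, h, fun _ => le_rfl, fun _ => rfl⟩

lemma Loc.pb {g : Set α → ℤ} (h : Loc t g) (ψ : α → β ⊕ Prop) : Loc t fun X => g (pb ψ X) :=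
  fun Y => by
    obtain ⟨g', h1, h2, h3⟩ := h fun i => MP_9f00ad_co.pb ψ (Y i)
    exact ⟨_, h1.pb ψ, fun X => h2 _, h3⟩

lemma Loc.pre {g : Set α → ℤ} (h : Loc t g) (e : α → β) : Loc t fun X => g (e ⁻¹' X) :=
  h.pb (inl ∘ e)

lemma Loc.compl {g : Set α → ℤ} (h : Loc t g) : Loc t fun X => g Xᶜ := fun Y => by
  obtain ⟨g', h1, h2, h3⟩ := h fun i => (Y i)ᶜ
  exact ⟨_, h1.compl, fun X => h2 _, h3⟩

lemma Loc.add {f g : Set α → ℤ} (h : Loc t f) (h' : Loc t g) : Loc t fun X => f X + g X :=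
  fun Y => by
    obtain ⟨f', h1, h2, h3⟩ := h Y
    obtain ⟨g', h4, h5, h6⟩ := h' Y
    exact ⟨_, h1.add h4, fun X => add_le_add (h2 X) (h5 X), fun i => by simp only [h3, h6]⟩

lemma Loc.inf {g : Set (α ⊕ β) → ℤ} (h : Loc t g) {f : Set α → ℤ}
    (h1 : ∀ Z, f (inl ⁻¹' Z) ≤ g Z) (h2 : ∀ X, ∃ Z, inl ⁻¹' Z = X ∧ g Z ≤ f X) : Loc t f := by
  intro Y
  choose Z Z1 Z2 using h2
  obtain ⟨g', h3, h4, h5⟩ := h fun i => Z (Y i)
  have := fun X : Set α => Int.exists_least_of_bdd (P := fun n => ∃ W, inl ⁻¹' W = X ∧ g' W = n)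
    ⟨f X, by rintro _ ⟨W, rfl, rfl⟩; exact (h1 W).trans (h4 W)⟩ ⟨_, Z X, Z1 X, rfl⟩
  choose f' f1 f2 using this
  have le : ∀ X, f X ≤ f' X := fun X => by
    obtain ⟨W, rfl, e⟩ := f1 X
    exact e ▸ (h1 W).trans (h4 W)
  exact ⟨f', h3.inf (fun W => f2 _ _ ⟨W, rfl, rfl⟩) fun X => (f1 X).imp fun W h => ⟨h.1, h.2.le⟩,
    le, fun i => le_antisymm ((f2 _ _ ⟨_, Z1 _, h5 i⟩).trans (Z2 _)) (le _)⟩

variable {M N : Matroid ℕ} {k : ℕ}

def LG (k : ℕ) (M : Matroid ℕ) : Prop := M.E.Finite ∧ Loc k (rk M)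

lemma LG.map (h : LG k M) (f : ℕ → ℕ) (hf : InjOn f M.E) : LG k (M.map f hf) := by
  refine ⟨h.1.image f, ?_⟩
  convert h.2.pre f using 2 with X
  rw [← rk_ground, ← rk_ground M, map_ground, ← image_preimage_inter, rk, rk,
    eRk_map _ _ inter_subset_right]

lemma LG.restrict (h : LG k M) {A : Set ℕ} (hA : A ⊆ M.E) : LG k (M ↾ A) := by
  refine ⟨h.1.subset hA, ?_⟩
  convert h.2.pb fun a => if a ∈ A then (inl a : ℕ ⊕ Prop) else inr False using 2 with X
  rw [rk, restrict_eRk_eq', rk]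
  congr 3
  ext a
  by_cases e : a ∈ A <;> simp [pb, e]

lemma LG.dual (h : LG k M) : LG k M✶ := by
  refine ⟨h.1, ?_⟩
  convert (h.2.compl.add (loc (ex_sum h.1.toFinset _ fun v _ => ex_un le_rfl 1 v))).add
    (loc (ex_const (-rk M M.E))) using 2 with X
  have := M.eRk_dual_add_eRank' X
  obtain ⟨a, a1, a2⟩ := eRk_eq (M := M✶) h.1 X
  obtain ⟨b, b1, b2⟩ := eRk_eq h.1 M.E
  obtain ⟨c, c1, c2⟩ := eRk_eq h.1 (M.E \ X)
  have e : X ∩ M.E = ↑(h.1.toFinset.filter (· ∈ X)) := by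
    ext
    simp [and_comm]
  rw [eRank_def, a1, b1, c1, e, encard_coe_eq_coe_finsetCard] at this
  rw [← rk_ground M Xᶜ, inter_comm, ← Set.sdiff_eq, a2, b2, c2, Finset.sum_boole]
  norm_cast at this
  omega

lemma LG.contract (h : LG k M) (A : Set ℕ) : LG k (M ／ A) :=
  ((h.dual).restrict sdiff_subset).dual

lemma LG.sum (h : LG k M) (h' : LG k N) (hd : Disjoint M.E N.E) :
    LG k (M.disjointSum N hd) := by
  refine ⟨by simpa using ⟨h.1, h'.1⟩, ?_⟩
  convert h.2.add h'.2 using 2 with X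
  obtain ⟨I, hI⟩ := (M.disjointSum N hd).exists_isBasis (X ∩ (M.disjointSum N hd).E)
  rw [← rk_ground, rk_basis hI.isBasis']
  rw [disjointSum_isBasis_iff] at hI
  obtain ⟨h1, h2, h3, -⟩ := hI
  replace h3 : I ⊆ M.E ∪ N.E := by simpa using h3.trans inter_subset_right
  rw [disjointSum_ground_eq, inter_assoc] at h1 h2
  rw [inter_eq_self_of_subset_right subset_union_left] at h1
  rw [inter_eq_self_of_subset_right subset_union_right] at h2
  rw [← rk_ground M, ← rk_ground N, rk_basis h1.isBasis', rk_basis h2.isBasis', ← Nat.cast_add,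
    ← ncard_union_eq (hd.mono inter_subset_right inter_subset_right) (h.1.inter_of_right _)
      (h'.1.inter_of_right _), ← inter_union_distrib_left, inter_eq_self_of_subset_left h3]

lemma LG.trunc (h : LG k M) (t : ℕ) (hE : N.E = M.E)
    (hN : ∀ I, N.Indep I ↔ M.Indep I ∧ I.encard ≤ t) : LG k N := by
  have hf : N.E.Finite := hE ▸ h.1
  have r : ∀ X, rk N X = min (rk M X) t := fun X => by
    obtain ⟨I, hI⟩ := N.exists_isBasis' X
    obtain ⟨J, hJ⟩ := M.exists_isBasis' X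
    have a := (hN I).1 hI.indep
    have b := rk_ge h.1 a.1 hI.subset
    have c : I.ncard ≤ t := by
      have := a.2
      rw [← (hf.subset hI.indep.subset_ground).cast_ncard_eq] at this
      exact_mod_cast this
    obtain ⟨K, K1, K2⟩ := exists_subset_card_eq (s := J) (min_le_left J.ncard t)
    have d := rk_ge hf ((hN K).2 ⟨hJ.indep.subset K1, by
      rw [← (h.1.subset (hJ.indep.subset K1).subset_ground).cast_ncard_eq, K2]
      exact_mod_cast min_le_right _ _⟩) (K1.trans hJ.subset)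
    rw [rk_basis hI] at d ⊢
    rw [rk_basis hJ] at b ⊢
    omega
  refine ⟨hf, ((((h.2.pre fun v => (inr (some v) : ℕ ⊕ Option ℕ)).add
    (loc (ex_arcs le_rfl h.1.toFinset inl fun v => inr (some v)))).add
    (loc (ex_arcs le_rfl h.1.toFinset (fun _ => inr none) fun v => inr (some v)))).add
    (loc (ex_un le_rfl (t - rk M univ) (inr none)))).inf (fun Z => ?_) fun X => ?_⟩
  · rw [r]
    have a := rk_le_arcs h.1 (inl ⁻¹' Z) ((fun v => inr (some v)) ⁻¹' Z)
    have b := rk_le_arcs h.1 univ ((fun v => inr (some v)) ⁻¹' Z)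
    simp only [mem_preimage, mem_univ, true_and] at a b
    by_cases e : inr none ∈ Z
    · simp only [e, true_and, if_true]
      omega
    · simp only [e, if_false]
      omega
  · rw [r]
    rcases le_total (rk M X) t with e | e
    · refine ⟨{w | Sum.elim (· ∈ X) (fun o => ∃ v ∈ X, o = some v) w}, rfl, ?_⟩
      have : (fun v => (inr (some v) : ℕ ⊕ Option ℕ)) ⁻¹'
          {w | Sum.elim (· ∈ X) (fun o => ∃ v ∈ X, o = some v) w} = X := by
        ext
        simp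
      simp [this, e]
    · refine ⟨{w | Sum.elim (· ∈ X) (fun _ => True) w}, rfl, ?_⟩
      have : (fun v => (inr (some v) : ℕ ⊕ Option ℕ)) ⁻¹'
          {w | Sum.elim (· ∈ X) (fun _ => True) w} = univ := by
        ext
        simp
      simp [this, e]

lemma LG.induce (h : LG k M) {T : Set ℕ} (hT : T.Finite) {D : ℕ → ℕ → Prop}
    (hD : ∀ u v, D u v → u ∈ T ∧ v ∈ T) (hE : N.E ⊆ T)
    (hN : ∀ X, N.Indep X ↔ X ⊆ N.E ∧ ∃ Y, M.Indep Y ∧ Linked D X Y) : LG k N := by
  have hf : N.E.Finite := hT.subset hE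
  lift T to Finset ℕ using hT
  let D0 := (T ×ˢ T).filter fun e => D e.1 e.2
  have hD0 : ∀ u v, (u, v) ∈ D0 ↔ D u v := fun u v => by
    simpa [D0] using fun h => hD u v h
  refine ⟨hf, ((((h.2.pre fun v => (inr (inr v) : ℕ ⊕ ℕ ⊕ ℕ)).add
    (loc (ex_arcs le_rfl hf.toFinset inl fun v => inr (inl v)))).add
    (loc (ex_arcs le_rfl T (fun v => inr (inl v)) fun v => inr (inr v)))).add
    (loc (ex_arcs le_rfl D0 (fun e => inr (inr e.1)) fun e => inr (inl e.2)))).inf
    (fun W => ?_) fun X => ?_⟩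
  · obtain ⟨I, hI⟩ := N.exists_isBasis' (inl ⁻¹' W)
    obtain ⟨I1, Y, Y1, Y2⟩ := (hN I).1 hI.indep
    let A := hf.toFinset.filter fun v => inl v ∈ W ∧ inr (inl v) ∉ W
    let B := T.filter fun v => inr (inl v) ∈ W ∧ inr (inr v) ∉ W
    let C := D0.filter fun e => inr (inr e.1) ∈ W ∧ inr (inl e.2) ∉ W
    have a := cut_ge (Z := T.filter (fun v => inr (inl v) ∈ W) ∪ A ∪ C.image Prod.snd)
      (R := (fun v => inr (inr v)) ⁻¹' W) h.1 Y2 Y1 (fun x hx => by
        have h1 := I1 hx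
        have h2 : x ∈ T := hE h1
        have h3 : inl x ∈ W := hI.subset hx
        by_cases e : inr (inl x) ∈ W <;> simp [A, e, h1, h2, h3]) fun u v huv hu => by
        by_cases e : inr (inl v) ∈ W
        · simpa [e] using .inl (hD u v huv).2
        · exact Finset.mem_coe.2 (Finset.mem_union_right _ (Finset.mem_image.2
            ⟨(u, v), Finset.mem_filter.2 ⟨(hD0 u v).2 huv, hu, e⟩, rfl⟩))
    have b : ((T.filter (fun v => inr (inl v) ∈ W) ∪ A ∪ C.image Prod.snd).filter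
        (· ∉ (fun v => (inr (inr v) : ℕ ⊕ ℕ ⊕ ℕ)) ⁻¹' W)).card ≤ (B ∪ A ∪ C.image Prod.snd).card :=
      Finset.card_le_card fun v => by
        simp only [B, Finset.mem_filter, Finset.mem_union, mem_preimage]
        tauto
    have c := Finset.card_union_le (B ∪ A) (C.image Prod.snd)
    have d := Finset.card_union_le B A
    have e := Finset.card_image_le (s := C) (f := Prod.snd)
    rw [rk_basis hI]
    change _ ≤ _ + (A.card : ℤ) + B.card + C.card
    omega
  · have : ¬ Cond M (hf.toFinset.filter (· ∈ X)) (rk N X + 1) D0 h.1.toFinset := fun hC => by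
      obtain ⟨X', h1, Y, h2, h3, h4⟩ := menger h.1 _ _ _ _ _ rfl hC
      have h5 : X' ⊆ N.E ∩ X := fun x hx => by simpa using h1 hx
      have := rk_ge hf ((hN X').2 ⟨h5.trans inter_subset_left, Y, h2,
        h3.mono fun u v => (hD0 u v).1⟩) (h5.trans inter_subset_right)
      omega
    simp only [Cond, not_forall, not_le, exists_prop] at this
    obtain ⟨Z, R, h1, h2, h3⟩ := this
    refine ⟨{w | Sum.elim (· ∈ X) (Sum.elim (· ∈ Z) (· ∈ R)) w}, rfl, ?_⟩
    rw [h.1.coe_toFinset, rk_ground] at h3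
    simp only [mem_ofPred_eq, Sum.elim_inl, Sum.elim_inr]
    rw [Finset.filter_eq_empty_iff.2 fun x hx e => e.2 (h1 (Finset.mem_filter.2 ⟨hx, e.1⟩)),
      (Finset.filter_eq_empty_iff (s := D0)).2 fun x hx e => e.2 (h2 x hx e.1)]
    have : (T.filter fun v => v ∈ Z ∧ v ∉ R).card ≤ (Z \ R).card :=
      Finset.card_le_card fun v => by simp
    change rk M R + _ + _ + _ ≤ _
    simp only [Finset.card_empty]
    omega

lemma LG.good (h : LG (2 ^ k) M) (hk : M.E.ncard ≤ k) : Good 2 M := by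
  refine ⟨h.1, ?_⟩
  have : Fintype.card h.1.toFinset.powerset ≤ Fintype.card (Fin (2 ^ k)) := by
    rw [Fintype.card_coe, Finset.card_powerset, Fintype.card_fin, ← ncard_eq_toFinset_card _ h.1]
    exact Nat.pow_le_pow_right two_pos hk
  obtain ⟨e⟩ := Function.Embedding.nonempty_of_card_le this
  obtain ⟨g, h1, -, h3⟩ := h.2 (Function.extend e (fun s => (s.1 : Set ℕ)) fun _ => ∅)
  convert h1.pb fun a => if a ∈ M.E then (inl a : ℕ ⊕ Prop) else inr False using 2 with X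
  have := h3 (e ⟨h.1.toFinset.filter (· ∈ X), by simp⟩)
  rw [e.injective.extend_apply] at this
  rw [← rk_ground]
  convert this.symm using 2 <;> ext a <;> by_cases e : a ∈ M.E <;> simp [pb, e]

end Pool.Agent.H.MP_96faa3_co
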