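import Pool.Agent.H.MP_96faa3_co.A

namespace Pool.Agent.H.MP_96faa3_co

open Set Sum Matroid Pool.Agent.H.MP_9f00ad_co
open scoped Classical

variable {W α β : Type}

def Lv {A : Type} (tl : A → W) (hd : A → Option W) (Z : Set W) (a : A) : Prop :=
  tl a ∈ Z ∧ ∀ w, hd a = some w → w ∉ Z

def CR (c : Set W → ℤ) : Prop :=
  ∃ (A : Type) (_ : Fintype A) (tl : A → W) (hd : A → Option W),
    ∀ Z, c Z = ∑ a, if Lv tl hd Z a then 1 else 0

lemma CR.add {f g : Set W → ℤ} (h : CR f) (h' : CR g) : CR fun Z => f Z + g Z := by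
  obtain ⟨A, _, t, d, h⟩ := h
  obtain ⟨B, _, t', d', h'⟩ := h'
  exact ⟨A ⊕ B, inferInstance, Sum.elim t t', Sum.elim d d', fun Z => by
    simp only [Fintype.sum_sum_type, h, h']; rfl⟩

lemma cr_unit {n : ℤ} (hn : 0 ≤ n) (u : W) (o : Option W) :
    CR fun Z => if u ∈ Z ∧ ∀ w, o = some w → w ∉ Z then n else 0 := by
  lift n to ℕ using hn
  refine ⟨Fin n, inferInstance, fun _ => u, fun _ => o, fun Z => ?_⟩
  simp only [Lv]
  split_ifs <;> simp

lemma cr_sum {ι : Type} (s : Finset ι) (f : ι → Set W → ℤ) (h : ∀ i ∈ s, CR (f i)) :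
    CR fun X => ∑ i ∈ s, f i X := by
  induction s using Finset.induction_on with
  | empty => exact ⟨Empty, inferInstance, Empty.elim, Empty.elim, by simp⟩
  | insert a s ha ih =>
    simpa [Finset.sum_insert ha] using
      (h a (by simp)).add (ih fun i hi => h i (Finset.mem_insert_of_mem hi))

lemma cr_two [Infinite W] {c : Set W → ℤ} (h1 : Sub c) {S : Finset W} (hS : S.card ≤ 2)
    (h2 : Dep c S) (h3 : ∀ Z, 0 ≤ c Z) (h4 : c ∅ = 0) : CR c := by
  obtain ⟨T, T1, T2⟩ := Infinite.exists_superset_card_eq S 2 hS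
  obtain ⟨u, v, huv, rfl⟩ := Finset.card_eq_two.1 T2
  have d : ∀ X Y : Set W, (u ∈ X ↔ u ∈ Y) → (v ∈ X ↔ v ∈ Y) → c X = c Y := fun X Y a b =>
    h2 X Y fun w hw => by
      rcases Finset.mem_insert.1 (T1 hw) with rfl | h
      · exact a
      · rwa [Finset.mem_singleton.1 h]
  have s := h1 {u} {v}
  rw [d ({u} ∩ {v}) ∅ (by simp [huv]) (by simp [huv.symm]), h4, singleton_union] at s
  have a := h3 {u}
  have b := h3 {v}
  have e := h3 {u, v}
  convert (((cr_unit (n := min (c {u}) (c {u, v})) (by omega) u none).add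
    (cr_unit (n := c {u, v} - min (c {u}) (c {u, v})) (by omega) v none)).add
    (cr_unit (n := c {u} - min (c {u}) (c {u, v})) (by omega) u (some v))).add
    (cr_unit (n := c {v} - (c {u, v} - min (c {u}) (c {u, v}))) (by omega) v (some u)) using 2
    with Z
  by_cases p : u ∈ Z <;> by_cases q : v ∈ Z
  · simp [p, q, d Z {u, v} (by simp [p]) (by simp [q])]
  · simp [p, q, d Z {u} (by simp [p]) (by simp [q, huv.symm])]
  · simp [p, q, d Z {v} (by simp [p, huv]) (by simp [q])]
  · simp [p, q, d Z ∅ (by simp [p]) (by simp [q]), h4]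

lemma md_sum (U : Finset W) : ∀ c : Set W → ℤ, Md c → Dep c U → c ∅ = 0 → ∀ Z,
    c Z = ∑ v ∈ U, if v ∈ Z then c {v} else 0 := by
  induction U using Finset.induction_on with
  | empty => exact fun c _ h h0 Z => (h Z ∅ (by simp)).trans h0
  | insert v U hv ih =>
    intro c h1 h2 h0 Z
    have := ih (fun Z => c (Z \ {v})) (fun X Y => by
      have := h1 (X \ {v}) (Y \ {v})
      rwa [← union_sdiff_distrib, show X \ {v} ∩ (Y \ {v}) = (X ∩ Y) \ {v} by
        ext; simp; tauto] at this)
      (fun X Y h => h2 _ _ fun w hw => by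
        by_cases e : w = v
        · simp [e]
        · simp [e, h w (by simpa [e] using hw)]) (by simpa using h0) Z
    rw [Finset.sum_congr rfl fun w hw => by
      rw [sdiff_singleton_eq_self (s := {w}) (a := v) (by rintro rfl; exact hv hw)]] at this
    rw [Finset.sum_insert hv, ← this]
    by_cases e : v ∈ Z
    · have := h1 (Z \ {v}) {v}
      rw [sdiff_union_of_subset (by simpa), sdiff_inter_self, h0] at this
      simp only [e, if_true]
      linarith
    · simp [e]

lemma normal {g : Set ℕ → ℤ} (hg : Ex 2 g) (mono : Monotone g) (h0 : g ∅ = 0) :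
    ∃ (H : Type) (F : Set (ℕ ⊕ H) → ℤ), CR F ∧ (∀ X Z, inl '' X ⊆ Z → g X ≤ F Z) ∧
      ∀ X, ∃ Z, inl '' X ⊆ Z ∧ F Z ≤ g X := by
  obtain ⟨H, F, ⟨I, _, f, hf, hF⟩, lo, at'⟩ := hg
  choose S hS hD using fun i => (hf i).2
  have Fs : Sub F := by
    have := sub_sum Finset.univ f fun i => (hf i).1
    intro X Y
    simpa only [hF] using this X Y
  have lo' : ∀ (X : Set ℕ) Z, inl '' X ⊆ Z → g X ≤ F Z := fun X Z h =>
    (mono (image_subset_iff.1 h)).trans (lo Z)
  have F0 : ∀ Z, 0 ≤ F Z := fun Z => h0 ▸ lo' _ _ (by simp)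
  obtain ⟨m, hm, hm0⟩ := decomp f S (fun i => (hf i).1) hD Finset.univ (fun _ => 0)
    (fun _ _ => le_rfl) fun Z => by simpa [hF] using F0 Z
  simp only [Finset.mem_univ, true_implies, add_zero] at hm hm0
  obtain ⟨B, -, hB⟩ := at' ∅
  have spl : ∀ Z, F Z = ∑ i, m i Z + ∑ i, (f i Z - m i Z) := fun Z => by simp [hF]
  have hn : ∀ i Z, 0 ≤ f i Z - m i Z := fun i Z => sub_nonneg.2 ((hm i).2.2 Z)
  have B0 := spl B
  rw [hB, h0] at B0
  have sn : 0 ≤ ∑ i, (f i B - m i B) := Finset.sum_nonneg fun i _ => hn i B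
  have B1 : ∑ i, m i B = 0 := by linarith [hm0 B]
  have B2 : ∀ i, f i B - m i B = 0 := fun i =>
    (Finset.sum_eq_zero_iff_of_nonneg fun i _ => hn i _).1 (by linarith) i (Finset.mem_univ _)
  have u1 : ∀ X Y : Set (ℕ ⊕ H), X ∪ Y ∪ B = X ∪ B ∪ (Y ∪ B) := fun X Y => union_union_distrib_right ..
  have u2 : ∀ X Y : Set (ℕ ⊕ H), X ∩ Y ∪ B = (X ∪ B) ∩ (Y ∪ B) := fun X Y =>
    inter_union_distrib_right ..
  refine ⟨H, fun Z => F (Z ∪ B), ?_, fun X Z h => lo' _ _ (h.trans subset_union_left),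
    fun X => ?_⟩
  · simp only [spl]
    refine CR.add ?_ (cr_sum _ _ fun i _ => cr_two (fun X Y => ?_) (hS i) (fun X Y h => ?_)
      (fun Z => hn i _) (by simpa using B2 i))
    · have := md_sum (Finset.univ.biUnion S) (fun Z => ∑ i, m i (Z ∪ B)) (fun X Y => by
        simp only [u1, u2, ← Finset.sum_add_distrib]
        exact Finset.sum_congr rfl fun i _ => (hm i).1 _ _) (fun X Y h =>
          Finset.sum_congr rfl fun i _ => (hm i).2.1 _ _ fun v hv => or_congr_left
            (h v (Finset.mem_biUnion.2 ⟨i, Finset.mem_univ _, hv⟩))) (by simpa using B1)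
      convert cr_sum (Finset.univ.biUnion S) _ fun v _ => cr_unit (hm0 ({v} ∪ B)) v none
        using 2 with Z
      rw [this]
      simp
    · have := (hf i).1 (X ∪ B) (Y ∪ B)
      have := (hm i).1 (X ∪ B) (Y ∪ B)
      simp only [u1, u2]
      linarith
    · rw [hD i (X ∪ B) (Y ∪ B) fun v hv => or_congr_left (h v hv),
        (hm i).2.1 (X ∪ B) (Y ∪ B) fun v hv => or_congr_left (h v hv)]
  · obtain ⟨Z, hZ, e⟩ := at' X
    exact ⟨Z, image_subset_iff.2 hZ.ge, by linarith [Fs Z B, F0 (Z ∩ B)]⟩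

lemma rk_free {S : Set ℕ} (X : Set ℕ) : rk (freeOn S) X = (X ∩ S).ncard := by
  rw [← rk_ground, freeOn_ground, rk_indep (freeOn_indep_iff.2 inter_subset_right)]

def Gam (M : Matroid ℕ) : Prop :=
  ∃ (T S : Set ℕ) (D : ℕ → ℕ → Prop), T.Finite ∧ (∀ u v, D u v → u ∈ T ∧ v ∈ T) ∧ S ⊆ T ∧
    M.E ⊆ T ∧ ∀ X, M.Indep X ↔ X ⊆ M.E ∧ ∃ Y ⊆ S, Linked D X Y

lemma Gam.good {M : Matroid ℕ} (h : Gam M) : Good 2 M := by
  obtain ⟨T, S, D, h1, h2, h3, h4, h5⟩ := h
  have f := h1.subset h3
  refine Good.induce (M := freeOn S) le_rfl ⟨f, ?_⟩ h1 h2 h4 (by simpa using h5)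
  convert ex_sum f.toFinset _ fun v _ => ex_un le_rfl 1 v using 2 with X
  rw [rk_free, Finset.sum_boole, ← ncard_coe_finset]
  congr 2
  ext
  simp [and_comm]

lemma good_gam {M : Matroid ℕ} (h : Good 2 M) : Gam M := by
  obtain ⟨H, F, ⟨A, _, tl, hd, hF⟩, lo, hi⟩ := normal h.2 (rk_mono h.1) (by simp [rk])
  replace hF : ∀ Z, F Z = (Finset.univ.filter (Lv tl hd Z)).card := fun Z => by
    rw [hF, Finset.sum_boole]
  obtain ⟨b, hb⟩ := h.1.bddAbove
  let cd : A → ℕ := fun a => b + 1 + Fintype.equivFin A a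
  have c1 : cd.Injective := fun a a' e => (Fintype.equivFin A).injective
    (Fin.ext (by simpa [cd] using e))
  have c2 : ∀ a, cd a ∉ M.E := fun a ha => by
    have := hb ha
    simp only [cd] at this
    omega
  clear_value cd
  let D : ℕ → ℕ → Prop := fun u v => ∃ a', cd a' = v ∧
    ((u ∈ M.E ∧ tl a' = inl u) ∨ ∃ a, cd a = u ∧ hd a = some (tl a'))
  let T : Finset ℕ := h.1.toFinset ∪ Finset.univ.image cd
  let S : Finset ℕ := (Finset.univ.filter fun a => hd a = none).image cd
  have hD : ∀ u v, D u v → u ∈ T ∧ v ∈ T := by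
    rintro u _ ⟨a', rfl, ⟨h, -⟩ | ⟨a, rfl, -⟩⟩ <;> simp [T, *]
  refine ⟨T, S, D, T.finite_toSet, hD, ?_, fun x hx => by simp [T, hx], fun X => ⟨fun hX => ?_, ?_⟩⟩
  · exact Finset.coe_subset.2 ((Finset.image_subset_image (Finset.filter_subset _ _)).trans
      Finset.subset_union_right)
  · have fX := h.1.subset hX.subset_ground
    lift X to Finset ℕ using fX
    let D0 := (T ×ˢ T).filter fun e => D e.1 e.2
    have hD0 : ∀ u v, (u, v) ∈ D0 ↔ D u v := fun u v => by
      simpa [D0] using fun h => hD u v h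
    obtain ⟨X', h1, Y, h2, h3, h4⟩ := menger (M := freeOn S) S.finite_toSet X X.card _ D0 S rfl
      fun Z R hZ hR => by
        have hR' : ∀ u v, D u v → u ∈ R → v ∈ Z := fun u v e => hR (u, v) ((hD0 u v).2 e)
        have a := lo (X.filter (· ∈ R)) {w | ∀ a, tl a = w → cd a ∈ Z} (by
          rintro _ ⟨x, hx, rfl⟩ a ha
          simp only [Finset.coe_filter, mem_ofPred_eq] at hx
          exact hR' x _ ⟨a, rfl, .inl ⟨hX.subset_ground hx.1, ha⟩⟩ hx.2)
        rw [rk_indep (hX.subset (Finset.coe_subset.2 (Finset.filter_subset _ _))), ncard_coe_finset, hF,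
          ← Finset.card_image_of_injective _ c1] at a
        rw [rk_free, inter_assoc, inter_self, ← Finset.coe_inter, ncard_coe_finset]
        have b := Finset.card_filter_add_card_filter_not (s := X) (· ∈ R)
        have c := Finset.card_union_of_disjoint (s := X.filter (· ∉ R)) (t := (Finset.univ.filter
          (Lv tl hd {w | ∀ a, tl a = w → cd a ∈ Z})).image cd) (Finset.disjoint_left.2 (by
            intro x hx hx'
            obtain ⟨a, -, rfl⟩ := Finset.mem_image.1 hx'
            exact c2 a (hX.subset_ground (Finset.mem_filter.1 hx).1)))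
        have d := Finset.card_le_card (s := X.filter (· ∉ R) ∪ (Finset.univ.filter
          (Lv tl hd {w | ∀ a, tl a = w → cd a ∈ Z})).image cd) (t := Z \ R ∪ R ∩ S) (by
            intro x hx
            rcases Finset.mem_union.1 hx with hx | hx
            · rw [Finset.mem_filter] at hx
              simp [hZ hx.1, hx.2]
            · obtain ⟨a, ha, rfl⟩ := Finset.mem_image.1 hx
              obtain ⟨a1, a2⟩ := (Finset.mem_filter.1 ha).2
              by_cases e : cd a ∈ R
              · rcases e' : hd a with _ | w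
                · exact Finset.mem_union_right _ (Finset.mem_inter.2 ⟨e,
                    Finset.mem_image_of_mem _ (by simp [e'])⟩)
                · exact (a2 w e' fun a' ha' => hR' _ _ ⟨a', rfl, .inr ⟨a, rfl, ha' ▸ e'⟩⟩ e).elim
              · simp [e, a1 a rfl])
        have e := Finset.card_union_le (Z \ R) (R ∩ S)
        omega
    obtain rfl := eq_of_subset_of_ncard_le h1 (by rw [ncard_coe_finset]; omega) X.finite_toSet
    exact ⟨hX.subset_ground, Y, freeOn_indep_iff.1 h2, h3.mono fun u v => (hD0 u v).1⟩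
  · rintro ⟨hX, Y, h1, h2⟩
    have fX := h.1.subset hX
    lift X to Finset ℕ using fX
    obtain ⟨V, V1, V2⟩ := hi X
    have a := cut_ge (M := freeOn S) S.finite_toSet h2 (freeOn_indep_iff.2 h1)
      (Z := X ∪ (Finset.univ.filter fun a => tl a ∈ V).image cd)
      (R := X ∪ cd '' {a | tl a ∈ V ∧ ∀ w, hd a = some w → w ∈ V}) (by simp) (by
        rintro u _ ⟨a', rfl, ⟨h3, h4⟩ | ⟨a, rfl, h3⟩⟩ hu
        · rcases hu with hu | ⟨a, -, rfl⟩
          · exact Finset.mem_union_right _ (Finset.mem_image_of_mem _ (by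
              simpa [h4] using V1 ⟨u, hu, rfl⟩))
          · exact (c2 a h3).elim
        · rcases hu with hu | ⟨a2, h5, e⟩
          · exact (c2 a (hX hu)).elim
          · obtain rfl := c1 e
            exact Finset.mem_union_right _ (Finset.mem_image_of_mem _ (by
              simpa using h5.2 _ h3)))
    have b := Finset.card_filter_add_card_filter_not (s := Finset.univ.filter (Lv tl hd V))
      (fun a => hd a = none)
    have c : ∀ Q : Finset ℕ, (∀ x ∈ Q, x ∈ X ∪ (Finset.univ.filter fun a => tl a ∈ V).image cd ∧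
        x ∉ (X : Set ℕ) ∪ cd '' {a | tl a ∈ V ∧ ∀ w, hd a = some w → w ∈ V}) → Q.card ≤ _ :=
      fun Q hQ => (Finset.card_le_card
      (t := ((Finset.univ.filter (Lv tl hd V)).filter fun a => ¬ hd a = none).image cd) (by
        intro x hx
        obtain ⟨h3, h4⟩ := hQ x hx
        rcases Finset.mem_union.1 h3 with h3 | h3
        · exact (h4 (.inl h3)).elim
        · obtain ⟨a, ha, rfl⟩ := Finset.mem_image.1 h3
          have ha' := (Finset.mem_filter.1 ha).2
          have : ¬ ∀ w, hd a = some w → w ∈ V := fun h => h4 (.inr ⟨a, ⟨ha', h⟩, rfl⟩)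
          push Not at this
          obtain ⟨w, w1, w2⟩ := this
          exact Finset.mem_image_of_mem _ (Finset.mem_filter.2 ⟨Finset.mem_filter.2
            ⟨Finset.mem_univ _, ha', fun w' e => by
              rw [w1, Option.some.injEq] at e
              exact e ▸ w2⟩, by simp [w1]⟩))).trans Finset.card_image_le
    replace a := a.trans (add_le_add_left (Int.ofNat_le.2
      (c _ fun x hx => by simpa only [Finset.mem_filter] using hx)) _)
    have d := (ncard_le_ncard (s := ((X : Set ℕ) ∪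
      cd '' {a | tl a ∈ V ∧ ∀ w, hd a = some w → w ∈ V}) ∩ S)
      (t := ↑(((Finset.univ.filter (Lv tl hd V)).filter fun a => hd a = none).image cd)) (by
        rintro x ⟨h3, h4⟩
        obtain ⟨a, ha, rfl⟩ := Finset.mem_image.1 h4
        rcases h3 with h3 | ⟨a2, h5, e⟩
        · exact (c2 a (hX h3)).elim
        · obtain rfl := c1 e
          have := (Finset.mem_filter.1 ha).2
          exact Finset.mem_image_of_mem _ (by simp [Lv, this, h5.1]))).trans
      ((ncard_coe_finset _).le.trans Finset.card_image_le)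
    obtain ⟨I, hI⟩ := M.exists_isBasis' X
    rw [rk_free] at a
    rw [hF, rk_basis hI] at V2
    exact eq_of_subset_of_ncard_le hI.subset (by omega) X.finite_toSet ▸ hI.indep

end Pool.Agent.H.MP_96faa3_co
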