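import Pool.Agent.H.MP_96faa3_co.B

namespace Pool.Agent.H.MP_96faa3_co

open Set Sum Matroid Pool.Agent.H.MP_9f00ad_co
open scoped Classical

def Mt (D : ℕ → ℕ → Prop) (X Y : Set ℕ) (φ : ℕ → ℕ) : Prop :=
  InjOn φ Yᶜ ∧ ∀ u ∉ Y, φ u ∉ X ∧ (φ u = u ∨ D u (φ u))

lemma mt_of_linked {D : ℕ → ℕ → Prop} {X Y : Set ℕ} (h : Linked D X Y) : ∃ φ, Mt D X Y φ := by
  obtain ⟨P, h1, h2, rfl, rfl⟩ := h
  have : ∀ u, ∃ v, (∀ p ∈ P, u ∈ p → v = p.formPerm u) ∧ ((∀ p ∈ P, u ∉ p) → v = u) := fun u => by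
    by_cases e : ∃ p ∈ P, u ∈ p
    · obtain ⟨p, hp, hu⟩ := e
      refine ⟨p.formPerm u, fun q hq hu' => ?_, fun h => (h p hp hu).elim⟩
      by_cases e : p = q
      · rw [e]
      · exact (h2 p hp q hq e hu hu').elim
    · exact ⟨u, fun p hp hu => (e ⟨p, hp, hu⟩).elim, fun _ => rfl⟩
  choose φ f1 f2 using this
  have mem : ∀ p ∈ P, ∀ u, φ u ∈ p → u ∈ p := fun p hp u hu => by
    by_cases e : ∃ p ∈ P, u ∈ p
    · obtain ⟨q, hq, hu'⟩ := e
      by_cases e : p = q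
      · rwa [e]
      · exact (h2 p hp q hq e hu (f1 u q hq hu' ▸ List.formPerm_apply_mem_of_mem hu')).elim
    · push Not at e
      rwa [f2 u e] at hu
  refine ⟨φ, fun u _ v _ e => ?_, fun u hu => ?_⟩
  · by_cases c : ∃ p ∈ P, φ u ∈ p
    · obtain ⟨p, hp, c⟩ := c
      have hv := mem p hp v (e ▸ c)
      rw [f1 u p hp (mem p hp u c), f1 v p hp hv] at e
      exact p.formPerm.injective e
    · push Not at c
      have a : ∀ w, φ w = φ u → φ w = w := fun w hw => f2 w fun p hp h =>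
        c p hp (hw ▸ f1 w p hp h ▸ List.formPerm_apply_mem_of_mem h)
      rw [← a u rfl, ← a v e.symm, e]
  · have key : ∀ p ∈ P, u ∈ p → ∃ i, ∃ h : i + 1 < p.length, p[i] = u ∧ p[i + 1] = φ u := by
      intro p hp h
      obtain ⟨i, hi, rfl⟩ := List.getElem_of_mem h
      have : i + 1 < p.length := by
        by_contra c
        exact hu ⟨p, hp, by
          rw [List.getLast?_eq_getElem?, show p.length - 1 = i by omega,
            List.getElem?_eq_getElem hi]⟩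
      exact ⟨i, this, rfl, by
        rw [f1 _ p hp h, List.formPerm_apply_lt_getElem _ (h1 p hp).2.1 i this]⟩
    constructor
    · rintro ⟨p, hp, e⟩
      obtain ⟨i, hi, -, k⟩ := key p hp (mem p hp u (List.mem_of_mem_head? e))
      rw [List.head?_eq_getElem?, List.getElem?_eq_getElem (by omega), Option.some.injEq, ← k,
        (h1 p hp).2.1.getElem_inj_iff] at e
      omega
    · by_cases e : ∃ p ∈ P, u ∈ p
      · obtain ⟨p, hp, e⟩ := e
        obtain ⟨i, hi, k1, k2⟩ := key p hp e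
        have := List.isChain_iff_getElem.1 (h1 p hp).2.2 i hi
        rw [k1, k2] at this
        exact .inr this
      · push Not at e
        exact .inl (f2 u e)

lemma linked_of_cond {T : Set ℕ} (hT : T.Finite) {D : ℕ → ℕ → Prop}
    (hD : ∀ u v, D u v → u ∈ T ∧ v ∈ T) {S X : Finset ℕ}
    (h : ∀ Z R : Finset ℕ, X ⊆ Z → (∀ u v, D u v → u ∈ R → v ∈ Z) →
      X.card ≤ (Z \ R).card + (R ∩ S).card) : ∃ Y ⊆ (S : Set ℕ), Linked D X Y := by
  lift T to Finset ℕ using hT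
  let D0 := (T ×ˢ T).filter fun e => D e.1 e.2
  have hD0 : ∀ u v, (u, v) ∈ D0 ↔ D u v := fun u v => by
    simpa [D0] using fun h => hD u v h
  obtain ⟨X', h1, Y, h2, h3, h4⟩ := menger (M := freeOn S) S.finite_toSet X X.card _ D0 S rfl
    fun Z R hZ hR => by
      rw [rk_free, inter_assoc, inter_self, ← Finset.coe_inter, ncard_coe_finset]
      exact_mod_cast h Z R hZ fun u v e => hR (u, v) ((hD0 u v).2 e)
  obtain rfl := eq_of_subset_of_ncard_le h1 (by rw [ncard_coe_finset]; omega) X.finite_toSet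
  exact ⟨Y, freeOn_indep_iff.1 h2, h3.mono fun u v => (hD0 u v).1⟩

lemma Gam.sbo {M : Matroid ℕ} (h : Gam M) {B₁ B₂ : Set ℕ} (b1 : M.IsBase B₁) (b2 : M.IsBase B₂) :
    ∃ φ : ℕ → ℕ, BijOn φ B₁ B₂ ∧ ∀ X ⊆ B₁, M.IsBase (B₁ \ X ∪ φ '' X) := by
  obtain ⟨T, S, D, hT, hD, hS, hE, hM⟩ := h
  have hf := hT.subset hE
  have ind : ∀ X ⊆ M.E, ∀ Y ⊆ S, ∀ φ, Mt D X Y φ → M.Indep X := fun X hX Y hY φ ⟨m1, m2⟩ => by
    have fX := hf.subset hX
    have fS := hT.subset hS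
    lift X to Finset ℕ using fX
    lift S to Finset ℕ using fS
    refine (hM X).2 ⟨hX, linked_of_cond hT hD fun Z R hZ hR => ?_⟩
    have a := Finset.card_le_card_of_injOn φ (s := (Z ∩ R).filter (· ∉ Y)) (t := Z \ X)
      (fun u hu => by
        simp only [Finset.coe_filter, Finset.mem_inter, mem_ofPred_eq] at hu
        obtain ⟨c, d⟩ := m2 u hu.2
        exact Finset.mem_sdiff.2 ⟨d.elim (fun e => e.symm ▸ hu.1.1) fun e => hR _ _ e hu.1.2, c⟩)
      (m1.mono fun u hu => (Finset.mem_filter.1 hu).2)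
    have b := Finset.card_filter_add_card_filter_not (s := Z ∩ R) (· ∈ Y)
    have c := Finset.card_le_card (s := (Z ∩ R).filter (· ∈ Y)) (t := R ∩ S) fun u hu => by
      simp only [Finset.mem_filter, Finset.mem_inter] at hu ⊢
      exact ⟨hu.1.2, hY hu.2⟩
    have d := Finset.card_sdiff_add_card_eq_card hZ
    have e := Finset.card_sdiff_add_card_inter Z R
    omega
  obtain ⟨-, Y1, y1, l1⟩ := (hM B₁).1 b1.indep
  obtain ⟨-, Y2, y2, l2⟩ := (hM B₂).1 b2.indep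
  obtain ⟨f, f1, f2⟩ := mt_of_linked l1
  obtain ⟨g, g1, g2⟩ := mt_of_linked l2
  let θ : ℕ → ℕ → Prop := fun w w' => ∃ u ∉ Y1, u ∉ Y2 ∧ g u = w ∧ f u = w'
  have back : ∀ C : Set ℕ, (∀ w w', θ w w' → w' ∈ C → w ∈ C) → M.Indep (B₁ \ C ∪ B₂ ∩ C) := by
    intro C hC
    let Ω := {u | (u ∉ Y2 ∧ g u ∈ C) ∨ (u ∉ Y1 ∧ f u ∈ C)}
    have o1 : ∀ u ∉ Y1 \ Ω ∪ Y2 ∩ Ω, u ∈ Ω → u ∉ Y2 ∧ g u ∈ C := fun u hu h => by
      have : u ∉ Y2 := fun k => hu (.inr ⟨k, h⟩)
      exact ⟨this, h.elim (·.2) fun k => hC _ _ ⟨u, k.1, this, rfl, rfl⟩ k.2⟩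
    have o2 : ∀ u ∉ Y1 \ Ω ∪ Y2 ∩ Ω, u ∉ Ω → u ∉ Y1 ∧ f u ∉ C := fun u hu h => by
      have : u ∉ Y1 := fun k => hu (.inl ⟨k, h⟩)
      exact ⟨this, fun k => h (.inr ⟨this, k⟩)⟩
    refine ind _ (union_subset (sdiff_subset.trans b1.subset_ground)
      (inter_subset_left.trans b2.subset_ground)) (Y1 \ Ω ∪ Y2 ∩ Ω)
      (union_subset (sdiff_subset.trans y1) (inter_subset_left.trans y2))
      (fun u => if u ∈ Ω then g u else f u) ⟨fun u hu v hv e => ?_, fun u hu => ?_⟩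
    · by_cases a : u ∈ Ω <;> by_cases b : v ∈ Ω <;> simp only [a, b, if_true, if_false] at e
      · exact g1 (o1 u hu a).1 (o1 v hv b).1 e
      · exact ((o2 v hv b).2 (e ▸ (o1 u hu a).2)).elim
      · exact ((o2 u hu a).2 (e ▸ (o1 v hv b).2)).elim
      · exact f1 (o2 u hu a).1 (o2 v hv b).1 e
    · by_cases a : u ∈ Ω <;> simp only [a, if_true, if_false]
      · obtain ⟨p, q⟩ := o1 u hu a
        exact ⟨fun k => k.elim (·.2 q) fun k => (g2 u p).1 k.1, (g2 u p).2⟩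
      · obtain ⟨p, q⟩ := o2 u hu a
        exact ⟨fun k => k.elim (fun k => (f2 u p).1 k.1) fun k => q k.2, (f2 u p).2⟩
  have f₁ := hf.subset b1.subset_ground
  have f₂ := hf.subset b2.subset_ground
  have e12 := b1.ncard_eq_ncard_of_isBase b2
  have both : ∀ C : Set ℕ, (∀ w w', θ w w' → (w' ∈ C ↔ w ∈ C)) →
      (B₁ ∩ C).ncard = (B₂ ∩ C).ncard ∧ M.IsBase (B₁ \ C ∪ B₂ ∩ C) := fun C hC => by
    have i1 := back C fun w w' h => (hC w w' h).1
    have i2 := back Cᶜ fun w w' h => (not_congr (hC w w' h)).1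
    rw [sdiff_compl, ← Set.sdiff_eq] at i2
    have le : ∀ I, M.Indep I → I.ncard ≤ B₁.ncard := fun I hI => by
      obtain ⟨B, hB, k⟩ := hI.exists_isBase_superset
      exact b1.ncard_eq_ncard_of_isBase hB ▸ ncard_le_ncard k (hf.subset hB.subset_ground)
    have a := le _ i1
    have b := le _ i2
    have c := ncard_union_eq (s := B₁ \ C) (t := B₂ ∩ C)
      (disjoint_left.2 fun x h h' => h.2 h'.2) f₁.sdiff (f₂.inter_of_left _)
    have d := ncard_union_eq (s := B₁ ∩ C) (t := B₂ \ C)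
      (disjoint_left.2 fun x h h' => h'.2 h.2) (f₁.inter_of_left _) f₂.sdiff
    have e := ncard_inter_add_ncard_sdiff_eq_ncard B₁ C f₁
    have e' := ncard_inter_add_ncard_sdiff_eq_ncard B₂ C f₂
    refine ⟨by omega, ?_⟩
    obtain ⟨B, hB, k⟩ := i1.exists_isBase_superset
    have := b1.ncard_eq_ncard_of_isBase hB
    exact eq_of_subset_of_ncard_le k (by omega) (hf.subset hB.subset_ground) ▸ hB
  have t1 : ∀ w w', θ w w' → w' ∉ B₁ := by
    rintro _ _ ⟨u, a, -, -, rfl⟩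
    exact (f2 u a).1
  have bk : ∀ b ∈ B₁, ∀ w w', θ w w' → (Relation.ReflTransGen θ b w' ↔
      Relation.ReflTransGen θ b w) := fun b hb w w' h => ⟨fun k => by
    rcases k.cases_tail with rfl | ⟨v, k1, k2⟩
    · exact (t1 _ _ h hb).elim
    · obtain ⟨u, a, -, rfl, rfl⟩ := h
      obtain ⟨u', a', -, rfl, e⟩ := k2
      rwa [← f1 a' a e], fun k => k.tail h⟩
  have dj : ∀ b ∈ B₁, ∀ b' ∈ B₁, ∀ w, Relation.ReflTransGen θ b w → Relation.ReflTransGen θ b' w →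
      b = b' := fun b hb b' hb' w h => by
    induction h with
    | refl => exact fun k => k.cases_tail.elim id fun ⟨v, _, k⟩ => (t1 _ _ k hb).elim
    | tail _ h ih => exact fun k => ih ((bk b' hb' _ _ h).1 k)
  have cl : ∀ X ⊆ B₁, B₁ ∩ {w | ∃ b ∈ X, Relation.ReflTransGen θ b w} = X := fun X hX =>
    Subset.antisymm (fun w ⟨h, b, hb, k⟩ => dj b (hX hb) w h w k .refl ▸ hb)
      fun w h => ⟨hX h, w, h, .refl⟩
  have bo := fun X (hX : X ⊆ B₁) => both {w | ∃ b ∈ X, Relation.ReflTransGen θ b w}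
    fun w w' h => exists_congr fun b => and_congr_right fun hb => bk b (hX hb) w w' h
  have : ∀ b ∈ B₁, ∃ c, ∀ w, (w ∈ B₂ ∧ Relation.ReflTransGen θ b w) ↔ w = c := fun b hb => by
    have := (bo {b} (by simpa)).1
    rw [cl _ (by simpa), ncard_singleton, eq_comm, ncard_eq_one] at this
    obtain ⟨c, hc⟩ := this
    exact ⟨c, fun w => by simpa using Set.ext_iff.1 hc w⟩
  choose! σ hσ using this
  have inj : InjOn σ B₁ := fun b hb b' hb' e =>
    dj b hb b' hb' _ ((hσ b hb _).2 rfl).2 ((hσ b' hb' _).2 e).2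
  have mt : MapsTo σ B₁ B₂ := fun b hb => ((hσ b hb _).2 rfl).1
  refine ⟨σ, ⟨mt, inj, (eq_of_subset_of_ncard_le mt.image_subset
    (by rw [inj.ncard_image, e12]) f₂).ge⟩, fun X hX => ?_⟩
  convert (bo X hX).2 using 2
  · rw [← sdiff_self_inter (s := B₁) (t := {w | _}), cl X hX]
  · ext w
    exact ⟨by
      rintro ⟨b, hb, rfl⟩
      exact ⟨mt (hX hb), b, hb, ((hσ b (hX hb) _).2 rfl).2⟩,
      fun ⟨h, b, hb, k⟩ => ⟨b, hb, ((hσ b (hX hb) w).1 ⟨h, k⟩).symm⟩⟩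

lemma strict_gam {n : ℕ} {S : Finset ℕ} (hS : ∀ v ∈ S, v < n) {D : ℕ → ℕ → Prop}
    (hD : ∀ u v, D u v → u < n ∧ v < n) {M : Matroid ℕ}
    (hE : M.E = Iio n) (hM : ∀ X ⊆ Iio n, M.Indep X ↔ ∀ Z ⊆ Iio n, X ⊆ Z →
      X.ncard + {u | u ∈ Z ∧ u ∉ S ∧ ∀ v, D u v → v ∈ Z}.ncard ≤ Z.ncard) : Gam M := by
  refine ⟨Iio n, S, D, finite_Iio n, hD, hS, hE.le, fun X => ⟨fun hX => ⟨hX.subset_ground, ?_⟩, ?_⟩⟩
  · have x1 := hE ▸ hX.subset_ground
    have fX := (finite_Iio n).subset x1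
    lift X to Finset ℕ using fX
    refine linked_of_cond (finite_Iio n) hD fun Z R hZ hR => ?_
    have a := (hM X x1).1 hX (Z.filter (· < n) : Finset ℕ) (fun v hv => (Finset.mem_filter.1 hv).2)
      fun v hv => Finset.mem_filter.2 ⟨hZ hv, x1 hv⟩
    have b := ncard_le_ncard (s := ↑((Z.filter (· < n) ∩ R) \ S))
      (t := {u | u ∈ (Z.filter (· < n) : Finset ℕ) ∧ u ∉ S ∧
        ∀ v, D u v → v ∈ (Z.filter (· < n) : Finset ℕ)}) (fun u hu => by
        simp only [Finset.coe_sdiff, Finset.coe_inter, mem_sdiff, mem_inter_iff] at hu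
        exact ⟨hu.1.1, hu.2, fun v h => Finset.mem_filter.2 ⟨hR _ _ h hu.1.2, (hD _ _ h).2⟩⟩)
      ((Z.filter (· < n)).finite_toSet.subset fun u h => h.1)
    have c := Finset.card_sdiff_add_card_inter (Z.filter (· < n)) R
    have d := Finset.card_sdiff_add_card_inter (Z.filter (· < n) ∩ R) S
    have e := Finset.card_le_card (Finset.sdiff_subset_sdiff (Finset.filter_subset (· < n) Z)
      (subset_refl R))
    have f := Finset.card_le_card (Finset.inter_subset_inter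
      (Finset.inter_subset_right (s₁ := Z.filter (· < n)) (s₂ := R)) (subset_refl S))
    simp only [ncard_coe_finset, Finset.mem_coe] at a b
    omega
  · rintro ⟨hX, Y, y1, y2⟩
    rw [hE] at hX
    refine (hM X hX).2 fun Z hZ h => ?_
    have fZ := (finite_Iio n).subset hZ
    lift Z to Finset ℕ using fZ
    set R := {u | u ∈ (Z : Set ℕ) ∧ u ∉ S ∧ ∀ v, D u v → v ∈ (Z : Set ℕ)}
    have a := cut_ge (M := freeOn S) S.finite_toSet y2 (freeOn_indep_iff.2 y1) (R := R) h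
      fun u v h hu => hu.2.2 v h
    rw [rk_free, (eq_empty_of_forall_notMem fun u h => h.1.2.1 h.2 : R ∩ S = ∅), ncard_empty,
      ← ncard_coe_finset] at a
    have b := ncard_sdiff_add_ncard_of_subset (s := R) (t := Z) (fun u h => h.1) Z.finite_toSet
    simp only [Finset.coe_filter] at a
    change (_ : ℤ) ≤ ((Z : Set ℕ) \ R).ncard + _ at a
    omega

end Pool.Agent.H.MP_96faa3_co
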