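import Pool.Agent.H.MP_96faa3_co.E

namespace Pool.Agent.H.MP_96faa3_co

open Set Sum Matroid Pool.Agent.H.MP_9f00ad_co
open scoped Classical

noncomputable def ch (I : Set ℕ) (v : ℕ) : ℤ := if v ∈ I then 1 else 0
noncomputable def bl (I : Set ℕ) (j : ℕ) : ℤ :=
  ch I (4 * j) + ch I (4 * j + 1) + ch I (4 * j + 2) + ch I (4 * j + 3)
noncomputable def ct (I : Set ℕ) (j : ℕ) : ℤ :=
  ch I (4 * j + 2) + min (ch I (4 * j)) (ch I (4 * j + 1))
noncomputable def cc (m : ℕ) (I : Set ℕ) : ℤ := ∑ j ∈ Finset.range (m + 1), ct I j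
def FF (m i : ℕ) : Set ℕ := {v | v < 4 * m + 2 ∧ (v % 4 = 3 ∨ (v % 4 = 1 ∧ v ≠ 4 * i + 1) ∨ v = 4 * i)}
def ee (m j : ℕ) : ℤ := if j < m then 1 else 0
def dd (i j : ℕ) : ℤ := if j = i then 1 else 0

variable {m i k : ℕ} {I J : Set ℕ}

lemma ch_01 (I : Set ℕ) (v : ℕ) : 0 ≤ ch I v ∧ ch I v ≤ 1 := by
  unfold ch
  split_ifs <;> omega

lemma ch_one {v : ℕ} (h : v ∈ I) : ch I v = 1 := if_pos h
lemma ch_zero {v : ℕ} (h : v ∉ I) : ch I v = 0 := if_neg h

lemma ch_le {u v : ℕ} (h : u ∈ I → v ∈ J) : ch I u ≤ ch J v := by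
  unfold ch
  split_ifs <;> first | omega | tauto

lemma ch_b (I : Set ℕ) (j : ℕ) : (0 ≤ ch I (4 * j) ∧ ch I (4 * j) ≤ 1) ∧
    (0 ≤ ch I (4 * j + 1) ∧ ch I (4 * j + 1) ≤ 1) ∧ (0 ≤ ch I (4 * j + 2) ∧ ch I (4 * j + 2) ≤ 1) ∧
    (0 ≤ ch I (4 * j + 3) ∧ ch I (4 * j + 3) ≤ 1) := ⟨ch_01 .., ch_01 .., ch_01 .., ch_01 ..⟩

lemma ch_ee {v j : ℕ} (h : j < m → v ∈ I) : ee m j ≤ ch I v := by
  unfold ch ee
  split_ifs <;> first | omega | tauto

lemma ch_dd {v j : ℕ} (h : j ≠ i → v ∈ I) : 1 - dd i j ≤ ch I v := by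
  unfold ch dd
  split_ifs <;> first | omega | tauto

lemma ch_dd' {v j : ℕ} (h : v ∈ I → j ≠ i) : ch I v ≤ 1 - dd i j := by
  unfold ch dd
  split_ifs <;> first | omega | tauto

lemma ch_dd2 {v j : ℕ} (h : v ∈ I → j = i) : ch I v ≤ dd i j := by
  unfold ch dd
  split_ifs <;> first | omega | tauto

lemma ch_dd3 {v j : ℕ} (h : j = i → v ∈ I) : dd i j ≤ ch I v := by
  unfold ch dd
  split_ifs <;> first | omega | tauto

lemma ch_ee' {v j : ℕ} (h : v ∈ I → j < m) : ch I v ≤ ee m j := by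
  unfold ch ee
  split_ifs <;> first | omega | tauto

lemma F_ch {j : ℕ} (hj : j ≤ m) : ch (FF m i) (4 * j) = dd i j ∧
    ch (FF m i) (4 * j + 1) = 1 - dd i j ∧ ch (FF m i) (4 * j + 2) = 0 ∧
    ch (FF m i) (4 * j + 3) = ee m j :=
  ⟨le_antisymm (ch_dd2 fun h => by have := h.2; omega) (ch_dd3 fun h => ⟨by omega, by omega⟩),
    le_antisymm (ch_dd' fun h => by have := h.2; omega) (ch_dd fun h => ⟨by omega, by omega⟩),
    ch_zero fun h => by have := h.2; omega,
    le_antisymm (ch_ee' fun h => by have := h.1; omega) (ch_ee fun h => ⟨by omega, by omega⟩)⟩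

lemma cnt (h : I ⊆ Iio (4 * m + 2)) : (I.ncard : ℤ) = ∑ j ∈ Finset.range (m + 1), bl I j := by
  have : ∀ k, ∑ v ∈ Finset.range (4 * k), ch I v = ∑ j ∈ Finset.range k, bl I j := fun k => by
    induction k with
    | zero => simp
    | succ k ih =>
      rw [Finset.sum_range_succ, ← ih, show 4 * (k + 1) = 4 * k + 1 + 1 + 1 + 1 by ring]
      simp only [Finset.sum_range_succ, bl]
      ring
  rw [← this]
  simp only [ch, Finset.sum_boole, ← ncard_coe_finset]
  congr 2
  ext v
  have := @h v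
  simp only [mem_Iio, Finset.coe_filter, Finset.mem_range, mem_ofPred_eq] at this ⊢
  exact ⟨fun k => ⟨by have := this k; omega, k⟩, fun k => k.2⟩

lemma sum_ee (m : ℕ) : ∑ j ∈ Finset.range (m + 1), ee m j = m := by
  rw [Finset.sum_range_succ, Finset.sum_congr rfl (g := fun _ => 1) fun j hj => by
    simp [ee, Finset.mem_range.1 hj]]
  simp [ee]

lemma sum_dd (h : i ≤ m) : ∑ j ∈ Finset.range (m + 1), dd i j = 1 := by
  simp [dd, Nat.lt_succ_of_le h]

lemma sum_one (m : ℕ) : ∑ _j ∈ Finset.range (m + 1), (1 : ℤ) = m + 1 := by simp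

lemma sle {f g : ℕ → ℤ} (h : ∀ j ≤ m, f j ≤ g j) :
    ∑ j ∈ Finset.range (m + 1), f j ≤ ∑ j ∈ Finset.range (m + 1), g j :=
  Finset.sum_le_sum fun j hj => h j (Nat.le_of_lt_succ (Finset.mem_range.1 hj))

lemma F_sub : FF m i ⊆ Iio (4 * m + 2) := fun _ h => h.1

lemma F_card (h : i ≤ m) : (FF m i).ncard = 2 * m + 1 := by
  have := cnt (F_sub (m := m) (i := i))
  rw [Finset.sum_congr rfl (g := fun j => 1 + ee m j) fun j hj => by
    have := F_ch (i := i) (Nat.le_of_lt_succ (Finset.mem_range.1 hj))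
    simp only [bl]
    omega, Finset.sum_add_distrib, sum_ee, sum_one] at this
  omega

lemma cc_mono (h : I ⊆ J) : cc m I ≤ cc m J := sle fun j _ => by
  have a := ch_le (@h (4 * j))
  have b := ch_le (@h (4 * j + 1))
  have c := ch_le (@h (4 * j + 2))
  simp only [ct]
  omega

lemma F_cc (h : I ⊆ FF m i) : cc m I ≤ 0 := (cc_mono h).trans (Finset.sum_nonpos fun j hj => by
  have := F_ch (i := i) (Nat.le_of_lt_succ (Finset.mem_range.1 hj))
  have := ch_b (FF m i) j
  simp only [ct]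
  omega)

lemma F_two (hi : i ≤ m) (hk : k ≤ m) (h : i ≠ k) (h1 : I ⊆ FF m i) (h2 : I ⊆ FF m k) :
    I.ncard + 1 ≤ 2 * m := by
  have b := cnt (h1.trans F_sub)
  have c := sle (m := m) (f := fun j => bl I j + dd i j + dd k j)
    (g := fun j => 1 + ee m j) fun j hj => by
      have := F_ch (i := i) hj
      have := F_ch (i := k) hj
      have := ch_le (@h1 (4 * j))
      have := ch_le (@h1 (4 * j + 1))
      have := ch_le (@h1 (4 * j + 2))
      have := ch_le (@h1 (4 * j + 3))
      have := ch_le (@h2 (4 * j))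
      have := ch_le (@h2 (4 * j + 1))
      simp only [bl, dd] at *
      split_ifs at * <;> omega
  simp only [Finset.sum_add_distrib, sum_ee, sum_one, sum_dd hi, sum_dd hk] at c
  omega

lemma ch_ins {e v : ℕ} (h : v ≠ e) : ch (insert e I) v = ch I v := by simp [ch, h]

lemma cc_ins (e : ℕ) (he : e < 4 * m + 2) : cc m (insert e I) ≤ cc m I + 1 := by
  rw [← sum_dd (show e / 4 ≤ m by omega), cc, cc, ← Finset.sum_add_distrib]
  refine sle fun j _ => ?_
  have := ch_b I j
  have := ch_b (insert e I) j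
  have := ch_ins (I := I) (e := e) (v := 4 * j)
  have := ch_ins (I := I) (e := e) (v := 4 * j + 1)
  have := ch_ins (I := I) (e := e) (v := 4 * j + 2)
  simp only [ct, dd]
  split_ifs <;> omega

lemma cc_ins' {e j : ℕ} (he : e = 4 * j + 3 ∨ ((e = 4 * j ∨ e = 4 * j + 1) ∧ 4 * j ∉ I ∧
    4 * j + 1 ∉ I)) : cc m (insert e I) ≤ cc m I := sle fun l _ => by
  have := ch_b I l
  have := ch_ins (I := I) (e := e) (v := 4 * l)
  have := ch_ins (I := I) (e := e) (v := 4 * l + 1)
  have := ch_ins (I := I) (e := e) (v := 4 * l + 2)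
  simp only [ct]
  rcases he with he | ⟨he, a, b⟩
  · omega
  · by_cases c : l = j
    · subst c
      have := ch_zero a
      have := ch_zero b
      omega
    · omega

def Ind (m : ℕ) (Q : ℕ → Prop) (I : Set ℕ) : Prop :=
  I ⊆ Iio (4 * m + 2) ∧ I.ncard ≤ 2 * m + 1 ∧ cc m I ≤ m ∧ ∀ i ≤ m, Q i → I ≠ FF m i

lemma ind_swap {Q : ℕ → Prop} (hm : 1 ≤ m) (hi : i ≤ m) (h : I ⊆ FF m i) (c : I.ncard = 2 * m)
    {f : ℕ} (hf : f < 4 * m + 2) (hf' : f ∉ FF m i) : Ind m Q (insert f I) :=
  ⟨insert_subset hf (h.trans F_sub), by have := ncard_insert_le f I; omega,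
    by have := cc_ins (I := I) f hf; have := F_cc h; omega, fun k hk _ e => by
      by_cases c' : i = k
      · exact hf' (c' ▸ e ▸ mem_insert _ _)
      · have := F_two hi hk c' h (e ▸ subset_insert _ _)
        omega⟩

lemma exists_mat (hm : 1 ≤ m) (Q : ℕ → Prop) :
    ∃ M : Matroid ℕ, M.E = Iio (4 * m + 2) ∧ ∀ I, M.Indep I ↔ Ind m Q I :=
  ⟨(IndepMatroid.ofFinite (finite_Iio _) (Ind m Q)
    ⟨empty_subset _, by simp, by simp [cc, ct, ch], fun i hi _ e => by
      have := F_card hi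
      simp [← e] at this⟩
    (fun I J hJ hI => by
      have f := (finite_Iio _).subset hJ.1
      exact ⟨hI.trans hJ.1, (ncard_le_ncard hI f).trans hJ.2.1, (cc_mono hI).trans hJ.2.2.1,
        fun i hi q e => hJ.2.2.2 i hi q (eq_of_subset_of_ncard_le hI
          (by rw [e, F_card hi]; exact hJ.2.1) f ▸ e)⟩)
    (fun I J hI hJ hc => by
      have f := (finite_Iio _).subset hI.1
      have s : ∀ e ∈ J, insert e I ⊆ Iio (4 * m + 2) ∧ (insert e I).ncard ≤ 2 * m + 1 :=
        fun e he => ⟨insert_subset (hJ.1 he) hI.1, by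
          have := ncard_insert_le e I
          have := hJ.2.1
          omega⟩
      rcases hI.2.2.1.lt_or_eq with c | c
      · obtain ⟨e, e1, e2⟩ := exists_mem_notMem_of_ncard_lt_ncard hc f
        by_cases k : ∀ i ≤ m, Q i → insert e I ≠ FF m i
        · exact ⟨e, e1, e2, (s e e1).1, (s e e1).2,
            by have := cc_ins (I := I) e (hJ.1 e1); omega, k⟩
        · push Not at k
          obtain ⟨i, hi, q, k⟩ := k
          have a := F_card hi
          have b := ncard_insert_of_notMem e2 f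
          have := hJ.2.1
          rw [k] at b
          obtain ⟨g, g1, g2⟩ : ∃ g ∈ J, g ∉ FF m i := not_subset.1 fun h => hJ.2.2.2 i hi q
            (eq_of_subset_of_ncard_le h (by omega) ((finite_Iio _).subset F_sub))
          exact ⟨g, g1, fun h => g2 (k ▸ .inr h),
            ind_swap hm hi (k ▸ subset_insert _ _) (by omega) (hJ.1 g1) g2⟩
      · by_contra hn
        have no : ∀ e ∈ J, ∀ j, e = 4 * j + 3 ∨ ((e = 4 * j ∨ e = 4 * j + 1) ∧ 4 * j ∉ I ∧
            4 * j + 1 ∉ I) → e ∈ I := fun e he j h => by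
          by_contra e2
          refine hn ⟨e, he, e2, (s e he).1, (s e he).2, (cc_ins' h).trans hI.2.2.1,
            fun i _ _ k => ?_⟩
          have := F_cc (k ▸ subset_insert _ _ : I ⊆ FF m i)
          omega
        have a := sle (m := m) (f := fun j => bl J j + ct I j) (g := fun j => bl I j + ct J j)
          fun j _ => by
            have r := ch_le fun h => no (4 * j + 3) h j (.inl rfl)
            have := ch_b I j
            have := ch_b J j
            simp only [bl, ct]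
            by_cases p1 : 4 * j ∈ I
            · have := ch_one p1
              omega
            by_cases p2 : 4 * j + 1 ∈ I
            · have := ch_one p2
              omega
            have := ch_le fun h => no (4 * j) h j (.inr ⟨.inl rfl, p1, p2⟩)
            have := ch_le fun h => no (4 * j + 1) h j (.inr ⟨.inr rfl, p1, p2⟩)
            have := ch_zero p1
            have := ch_zero p2
            omega
        simp only [Finset.sum_add_distrib, ← cnt hI.1, ← cnt hJ.1] at a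
        have := hJ.2.2.1
        simp only [cc] at this c
        omega)
    (fun _ h => h.1)).matroid, rfl, fun _ => Iff.rfl⟩

end Pool.Agent.H.MP_96faa3_co
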