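import Pool.Agent.H.MP_96faa3_co.F

namespace Pool.Agent.H.MP_96faa3_co

open Set Sum Matroid Pool.Agent.H.MP_9f00ad_co
open scoped Classical

variable {m k : ℕ}

def DD (m u v : ℕ) : Prop := u < 4 * m + 2 ∧ v < 4 * m + 2 ∧
  ((u % 4 = 1 ∧ (v % 4 = 2 ∨ v + 1 = u)) ∨ (u % 4 = 0 ∧ (v % 4 = 3 ∨ (v % 4 = 1 ∧ v ≠ u + 1))))

def SS (m k : ℕ) : Finset ℕ :=
  (Finset.range (4 * m + 2)).filter fun v => v % 4 = 2 ∨ v % 4 = 3 ∨ v = 4 * k

lemma mem_SS {v : ℕ} : v ∈ SS m k ↔ v < 4 * m + 2 ∧ (v % 4 = 2 ∨ v % 4 = 3 ∨ v = 4 * k) := by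
  simp [SS]

def RR (m k : ℕ) (Z : Set ℕ) : Set ℕ := {u | u ∈ Z ∧ u ∉ SS m k ∧ ∀ v, DD m u v → v ∈ Z}

lemma fwd (hk : k ≤ m) {X Z : Set ℕ} (h : Ind m (· ≠ k) X) (hZ : Z ⊆ Iio (4 * m + 2))
    (hXZ : X ⊆ Z) : X.ncard + (RR m k Z).ncard ≤ Z.ncard := by
  obtain ⟨hX, x1, x2, x3⟩ := h
  have fZ := (finite_Iio _).subset hZ
  have r0 : ∀ u ∈ RR m k Z, u ∈ Z := fun u h => h.1
  have rl : ∀ u ∈ RR m k Z, u < 4 * m + 2 := fun u h => hZ (r0 u h)
  have r2 : ∀ j, ch (RR m k Z) (4 * j + 2) = 0 := fun j => ch_zero fun h =>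
    h.2.1 (mem_SS.2 ⟨rl _ h, by omega⟩)
  have r3 : ∀ j, ch (RR m k Z) (4 * j + 3) = 0 := fun j => ch_zero fun h =>
    h.2.1 (mem_SS.2 ⟨rl _ h, by omega⟩)
  have rk : ∀ j, 4 * j ∈ RR m k Z → j ≠ k := fun j h e => h.2.1 (mem_SS.2 ⟨rl _ h, by omega⟩)
  have r1 : ∀ j, 4 * j + 1 ∈ RR m k Z → 4 * j ∈ Z := fun j h =>
    h.2.2 _ (by have := rl _ h; unfold DD; omega)
  have r1' : ∀ j, 4 * j + 1 ∈ RR m k Z → ∀ l < m, 4 * l + 2 ∈ Z := fun j h l hl =>
    h.2.2 _ (by have := rl _ h; unfold DD; omega)
  have rF : ∀ j, 4 * j ∈ RR m k Z → FF m j ⊆ Z := fun j h v hv => by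
    by_cases e : v = 4 * j
    · exact e ▸ r0 _ h
    · exact h.2.2 _ (by have := rl _ h; have := hv.1; have := hv.2; unfold DD; omega)
  generalize RR m k Z = ρ at *
  have cρ := cnt (m := m) (I := ρ) rl
  have cZ := cnt hZ
  have cX := cnt hX
  by_cases B : ∃ i, 4 * i ∈ ρ
  · obtain ⟨i, hi⟩ := B
    have im : i ≤ m := by have := rl _ hi; omega
    have zF : ∀ v, ch (FF m i) v ≤ ch Z v := fun v => ch_le (@rF i hi v)
    by_cases al : ∀ l < m, 4 * l + 2 ∈ Z
    · have a := sle (m := m) (f := fun j => bl ρ j + ee m j + ee m j + dd k j) (g := bl Z)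
        fun j hj => by
          have := ch_le (r1 j)
          have := ch_le (r0 (4 * j + 1))
          have := F_ch (i := i) hj
          have := zF (4 * j)
          have := zF (4 * j + 1)
          have := zF (4 * j + 3)
          have := ch_ee (al j)
          have := ch_dd' (rk j)
          have := ch_b Z j
          have := ch_b (FF m i) j
          simp only [bl, r2, r3]
          omega
      simp only [Finset.sum_add_distrib, sum_ee, sum_dd hk] at a
      omega
    · have r1'' : ∀ j, ch ρ (4 * j + 1) = 0 := fun j => ch_zero fun h => al (r1' j h)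
      by_cases yi : 4 * i + 1 ∈ Z
      · have a := sle (m := m) (f := fun j => bl ρ j + ee m j + 1) (g := bl Z) fun j hj => by
          have := ch_le (r0 (4 * j))
          have : ch Z (4 * j + 1) = 1 := ch_one (by
            by_cases e : j = i
            exacts [e ▸ yi, rF i hi ⟨by omega, by omega⟩])
          have := F_ch (i := i) hj
          have := zF (4 * j + 3)
          have := ch_b Z j
          simp only [bl, r1'', r2, r3]
          omega
        simp only [Finset.sum_add_distrib, sum_ee, sum_one] at a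
        omega
      · have a := sle (m := m) (f := bl ρ) (g := dd i) fun j hj => by
          have := ch_dd2 (I := ρ) (v := 4 * j) (i := i) (j := j) fun h => by
            by_contra e
            exact yi (rF j h ⟨by omega, by omega⟩)
          simp only [bl, r1'', r2, r3]
          omega
        rw [sum_dd im] at a
        have b := F_card im
        rcases (rF i hi).eq_or_ssubset with e | e
        · have := ncard_lt_ncard (hXZ.ssubset_of_ne (e ▸ x3 i im (rk i hi))) fZ
          rw [e] at b
          omega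
        · have := ncard_lt_ncard e fZ
          omega
  · push Not at B
    by_cases al : ∀ l < m, 4 * l + 2 ∈ Z
    · have a := sle (m := m) (f := fun j => bl X j + bl ρ j + ee m j)
        (g := fun j => bl Z j + ct X j) fun j hj => by
          have := ch_le (r1 j)
          have := ch_le (r0 (4 * j + 1))
          have := ch_ee (al j)
          have := ch_le (@hXZ (4 * j))
          have := ch_le (@hXZ (4 * j + 1))
          have := ch_le (@hXZ (4 * j + 3))
          have := ch_zero (B j)
          have := ch_b Z j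
          have := ch_b X j
          have := ch_b ρ j
          simp only [bl, ct, r2, r3]
          omega
      simp only [Finset.sum_add_distrib, sum_ee] at a
      simp only [cc] at x2
      omega
    · have r1'' : ∀ j, ch ρ (4 * j + 1) = 0 := fun j => ch_zero fun h => al (r1' j h)
      have := ncard_le_ncard hXZ fZ
      simp [bl, ch_zero (B _), r1'', r2, r3] at cρ
      omega

lemma bwd (hk : k ≤ m) {X : Set ℕ} (hX : X ⊆ Iio (4 * m + 2)) (h : ∀ Z ⊆ Iio (4 * m + 2), X ⊆ Z →
    X.ncard + (RR m k Z).ncard ≤ Z.ncard) : Ind m (· ≠ k) X := by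
  refine ⟨hX, ?_, ?_, fun i hi q e => ?_⟩
  · have a := h _ subset_rfl hX
    have b := cnt (m := m) (I := RR m k (Iio (4 * m + 2))) fun u h => h.1
    have c := sle (m := m) (f := fun j => 1 + 1 - dd k j) (g := bl (RR m k (Iio (4 * m + 2))))
      fun j hj => by
        have := ch_b (RR m k (Iio (4 * m + 2))) j
        have := ch_one (I := RR m k (Iio (4 * m + 2))) (v := 4 * j + 1)
          ⟨mem_Iio.2 (by omega), by rw [mem_SS]; omega, fun v h => h.2.1⟩
        have := ch_dd (I := RR m k (Iio (4 * m + 2))) (v := 4 * j) (i := k) (j := j) fun e =>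
          ⟨mem_Iio.2 (by omega), by rw [mem_SS]; omega, fun v h => h.2.1⟩
        simp only [bl]
        omega
    rw [Finset.sum_sub_distrib, Finset.sum_add_distrib, sum_one, sum_dd hk] at c
    rw [Set.ncard_Iio_nat] at a
    omega
  · obtain ⟨Z, hZ'⟩ : ∃ Z : Set ℕ, ∀ v, v ∈ Z ↔ v ∈ X ∨ (v < 4 * m + 2 ∧ v % 4 = 2) :=
      ⟨_, fun v => Iff.rfl (a := v ∈ {v | v ∈ X ∨ (v < 4 * m + 2 ∧ v % 4 = 2)})⟩
    have hZ : Z ⊆ Iio (4 * m + 2) := fun v h => ((hZ' v).1 h).elim (@hX v) (·.1)
    have a := h _ hZ fun v h => (hZ' v).2 (.inl h)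
    have c := sle (m := m) (f := fun j => bl Z j + ct X j)
      (g := fun j => bl X j + bl (RR m k Z) j + ee m j) fun j hj => by
        have := ch_le (u := 4 * j) fun h => ((hZ' _).1 h).resolve_right (by omega)
        have := ch_le (u := 4 * j + 1) fun h => ((hZ' _).1 h).resolve_right (by omega)
        have := ch_le (u := 4 * j + 3) fun h => ((hZ' _).1 h).resolve_right (by omega)
        have := ch_ee' (I := Z) (v := 4 * j + 2) (j := j) (m := m) fun h => by
          have := mem_Iio.1 (hZ h)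
          omega
        have := ch_b X j
        have := ch_b (RR m k Z) j
        simp only [bl, ct]
        by_cases p : 4 * j ∈ X ∧ 4 * j + 1 ∈ X
        · have := ch_one (I := RR m k Z) (v := 4 * j + 1) ⟨(hZ' _).2 (.inl p.2),
            by rw [mem_SS]; omega, fun v hv => (hZ' v).2 (by
              by_cases e : v = 4 * j
              · exact .inl (e ▸ p.1)
              · exact .inr (by unfold DD at hv; omega))⟩
          omega
        · rcases not_and_or.1 p with p | p <;> have := ch_zero p <;> omega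
    simp only [Finset.sum_add_distrib, sum_ee, ← cnt hZ, ← cnt hX,
      ← cnt (m := m) (I := RR m k Z) fun u h => hZ h.1] at c
    simp only [cc]
    omega
  · have a := h X hX subset_rfl
    rw [add_le_iff_nonpos_right, Nat.le_zero, ncard_eq_zero ((finite_Iio _).subset
      fun u h => hX h.1), eq_empty_iff_forall_notMem] at a
    subst e
    exact a (4 * i) ⟨⟨by omega, by omega⟩, by rw [mem_SS]; omega,
      fun v h => ⟨h.2.1, by unfold DD at h; omega⟩⟩

lemma gam_k (hk : k ≤ m) {M : Matroid ℕ} (hE : M.E = Iio (4 * m + 2))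
    (hM : ∀ I, M.Indep I ↔ Ind m (· ≠ k) I) : Gam M :=
  strict_gam (S := SS m k) (fun _ h => (mem_SS.1 h).1) (D := DD m) (fun _ _ h => ⟨h.1, h.2.1⟩) hE
    fun X hX => (hM X).trans ⟨fun h _ => fwd hk h, bwd hk hX⟩

lemma exists_N' (t : ℕ) : ∃ N : Matroid ℕ, LG t N ∧ ∃ A B, N.IsBase A ∧ N.IsBase B ∧
    ∀ φ : ℕ → ℕ, BijOn φ A B → ¬ ∀ X ⊆ A, X.ncard = 1 ∨ X.ncard + 1 = A.ncard →
      N.IsBase (A \ X ∪ φ '' X) := by
  obtain ⟨m, hm⟩ : ∃ m, m = t + 1 := ⟨_, rfl⟩
  have h1 : 1 ≤ m := by omega
  obtain ⟨N, hE, hN⟩ := exists_mat h1 fun _ => True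
  have hf : N.E.Finite := hE ▸ finite_Iio _
  refine ⟨N, ⟨hf, fun Y => ?_⟩, ?_⟩
  · have : ∀ j, ∃ i, ∀ i' ≤ m, Y j ∩ Iio (4 * m + 2) = FF m i' → i' = i := fun j => by
      by_cases e : ∃ i ≤ m, Y j ∩ Iio (4 * m + 2) = FF m i
      · obtain ⟨i, hi, e⟩ := e
        refine ⟨i, fun i' hi' e' => by_contra fun c => ?_⟩
        have := F_two hi' hi c subset_rfl (e' ▸ e.le)
        have := F_card hi'
        omega
      · exact ⟨0, fun i hi e' => (e ⟨i, hi, e'⟩).elim⟩
    choose idx hidx using this
    obtain ⟨k, m1, m2⟩ := Finset.exists_mem_notMem_of_card_lt_card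
      (s := Finset.univ.image idx) (t := Finset.range (t + 1))
      (Finset.card_image_le.trans_lt (by simp))
    have hk : k ≤ m := by have := Finset.mem_range.1 m1; omega
    obtain ⟨K, hE', hK⟩ := exists_mat h1 (· ≠ k)
    have := (gam_k hk hE' hK).good
    have le : ∀ X, rk N X ≤ rk K X := fun X => by
      obtain ⟨I, hI⟩ := N.exists_isBasis' X
      obtain ⟨a, b, c, d⟩ := (hN I).1 hI.indep
      rw [rk_basis hI]
      exact rk_ge this.1 ((hK I).2 ⟨a, b, c, fun i hi _ => d i hi trivial⟩) hI.subset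
    refine ⟨_, this.2, le, fun j => le_antisymm ?_ (le _)⟩
    obtain ⟨I, hI⟩ := K.exists_isBasis' (Y j)
    obtain ⟨a, b, c, d⟩ := (hK I).1 hI.indep
    rw [rk_basis hI]
    by_cases e : I = FF m k
    · subst e
      obtain ⟨w, w1, w2⟩ : ∃ w ∈ Y j ∩ Iio (4 * m + 2), w ∉ FF m k := not_subset.1 fun s =>
        m2 (Finset.mem_image.2 ⟨j, Finset.mem_univ _,
          (hidx j k hk (s.antisymm (subset_inter hI.subset a))).symm⟩)
      have e1 : 4 * k ∈ FF m k := ⟨by omega, by omega⟩
      have e2 := ncard_sdiff_singleton_add_one e1 ((finite_Iio _).subset a)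
      have e3 := F_card hk
      have := rk_ge hf ((hN _).2 (ind_swap h1 hk sdiff_subset (I := FF m k \ {4 * k}) (by omega)
        w1.2 w2)) (insert_subset w1.1 (sdiff_subset.trans hI.subset))
      rw [ncard_insert_of_notMem (fun h => w2 h.1) (((finite_Iio _).subset a).sdiff)] at this
      omega
    · exact rk_ge hf ((hN I).2 ⟨a, b, c, fun i hi _ => by
        by_cases q : i = k
        exacts [q ▸ e, d i hi q]⟩) hI.subset
  · have base : ∀ I, N.Indep I → I.ncard = 2 * m + 1 → N.IsBase I := fun I hI c => by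
      obtain ⟨B, hB, s⟩ := hI.exists_isBase_superset
      exact eq_of_subset_of_ncard_le s (c ▸ ((hN B).1 hB.indep).2.1)
        (hf.subset hB.subset_ground) ▸ hB
    obtain ⟨A, hA⟩ : ∃ A : Set ℕ, ∀ v, v ∈ A ↔ v < 4 * m + 2 ∧ v % 2 = 0 :=
      ⟨_, fun v => Iff.rfl (a := v ∈ {v | v < 4 * m + 2 ∧ v % 2 = 0})⟩
    obtain ⟨B, hB⟩ : ∃ A : Set ℕ, ∀ v, v ∈ A ↔ v < 4 * m + 2 ∧ v % 2 = 1 :=
      ⟨_, fun v => Iff.rfl (a := v ∈ {v | v < 4 * m + 2 ∧ v % 2 = 1})⟩
    have sA : A ⊆ Iio _ := fun v h => ((hA v).1 h).1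
    have sB : B ⊆ Iio _ := fun v h => ((hB v).1 h).1
    have cA : ∀ j ≤ m, ch A (4 * j) = 1 ∧ ch A (4 * j + 1) = 0 ∧ ch A (4 * j + 2) = ee m j ∧
        ch A (4 * j + 3) = 0 := fun j hj => ⟨ch_one (by rw [hA]; omega),
      ch_zero (by rw [hA]; omega), le_antisymm (ch_ee' (by rw [hA]; omega))
        (ch_ee (by rw [hA]; omega)), ch_zero (by rw [hA]; omega)⟩
    have cB : ∀ j ≤ m, ch B (4 * j) = 0 ∧ ch B (4 * j + 1) = 1 ∧ ch B (4 * j + 2) = 0 ∧
        ch B (4 * j + 3) = ee m j := fun j hj => ⟨ch_zero (by rw [hB]; omega),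
      ch_one (by rw [hB]; omega), ch_zero (by rw [hB]; omega),
      le_antisymm (ch_ee' (by rw [hB]; omega)) (ch_ee (by rw [hB]; omega))⟩
    have nA : A.ncard = 2 * m + 1 := by
      have := cnt sA
      rw [Finset.sum_congr rfl (g := fun j => 1 + ee m j) fun j hj => by
        have := cA j (Nat.le_of_lt_succ (Finset.mem_range.1 hj))
        simp only [bl]
        omega, Finset.sum_add_distrib, sum_ee, sum_one] at this
      omega
    have nB : B.ncard = 2 * m + 1 := by
      have := cnt sB
      rw [Finset.sum_congr rfl (g := fun j => 1 + ee m j) fun j hj => by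
        have := cB j (Nat.le_of_lt_succ (Finset.mem_range.1 hj))
        simp only [bl]
        omega, Finset.sum_add_distrib, sum_ee, sum_one] at this
      omega
    refine ⟨A, B, base _ ((hN _).2 ⟨sA, nA.le, ?_, fun i hi _ e => ?_⟩) nA,
      base _ ((hN _).2 ⟨sB, nB.le, ?_, fun i hi _ e => ?_⟩) nB, fun φ hφ h => ?_⟩
    · refine (sle fun j hj => ?_).trans (sum_ee m).le
      have := cA j hj
      simp only [ct]
      omega
    · have : 3 ∈ A := e ▸ ⟨by omega, by omega⟩
      rw [hA] at this
      omega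
    · refine (Finset.sum_nonpos fun j hj => ?_).trans (by omega)
      have := cB j (Nat.le_of_lt_succ (Finset.mem_range.1 hj))
      simp only [ct]
      omega
    · have : 4 * i ∈ B := e ▸ ⟨by omega, by omega⟩
      rw [hB] at this
      omega
    · have key : ∀ i ≤ m, φ (4 * i) % 4 = 3 := fun i hi => by
        have xa : 4 * i ∈ A := by rw [hA]; omega
        have yb := (hB _).1 (hφ.mapsTo xa)
        by_contra c
        obtain ⟨j, hj⟩ : ∃ j, φ (4 * i) = 4 * j + 1 := ⟨φ (4 * i) / 4, by omega⟩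
        by_cases e : j = i
        · refine ((hN _).1 (h (A \ {4 * i}) sdiff_subset (.inr (ncard_sdiff_singleton_add_one xa
            ((finite_Iio _).subset sA)))).indep).2.2.2 i hi trivial ?_
          rw [hφ.injOn.image_sdiff_subset (by simpa), hφ.image_eq, image_singleton, hj,
            sdiff_sdiff_cancel_left (by simpa)]
          ext v
          simp only [mem_union, mem_singleton_iff, mem_sdiff, hB, FF, mem_ofPred_eq]
          omega
        · have a := ((hN _).1 (h {4 * i} (by simpa) (.inl (ncard_singleton _))).indep).2.2.1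
          rw [image_singleton, hj] at a
          have b := sle (m := m) (f := fun l => ee m l + dd j l)
            (g := ct (A \ {4 * i} ∪ {4 * j + 1})) fun l hl => by
              have := ch_ee (I := A \ {4 * i} ∪ {4 * j + 1}) (v := 4 * l + 2) (j := l) (m := m)
                fun h => .inl ⟨by rw [hA]; omega, by simp; omega⟩
              have := ch_dd3 (I := A \ {4 * i} ∪ {4 * j + 1}) (v := 4 * l) (j := l) (i := j)
                fun h => .inl ⟨by rw [hA]; omega, by simp; omega⟩
              have := ch_dd3 (I := A \ {4 * i} ∪ {4 * j + 1}) (v := 4 * l + 1) (j := l) (i := j)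
                fun h => .inr (by simp [h])
              simp only [ct]
              omega
          rw [Finset.sum_add_distrib, sum_ee, sum_dd (by omega)] at b
          simp only [cc] at a
          omega
      have := Finset.card_le_card_of_injOn (s := Finset.range (m + 1)) (t := Finset.range m)
        (fun i => φ (4 * i) / 4) (fun i hi => by
          simp only [Finset.coe_range, mem_Iio] at hi ⊢
          have := key i (by omega)
          have := (hB _).1 (hφ.mapsTo (show 4 * i ∈ A by rw [hA]; omega))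
          omega) fun i hi j hj e => by
          simp only [Finset.coe_range, mem_Iio] at hi hj e
          have := key i (by omega)
          have := key j (by omega)
          have := hφ.injOn (show 4 * i ∈ A by rw [hA]; omega) (show 4 * j ∈ A by rw [hA]; omega)
            (by omega)
          omega
      simp at this

end Pool.Agent.H.MP_96faa3_co
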